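import Pool.Agent.H96.OD3

namespace Pool.Agent.Results.MP_c10eee_an.No
open Set Metric

/-- `V` is twice differentiable on the line and `V'' = f ∘ V`. -/
def OneDim (f V : ℝ → ℝ) : Prop :=
  Differentiable ℝ V ∧ Differentiable ℝ (deriv V) ∧ ∀ s, deriv (deriv V) s = f (V s)

/-- Euclidean three-space. -/
abbrev E3 : Type := EuclideanSpace ℝ (Fin 3)

/-- `Φ` distorts distances on the ball of radius `δ` by at most one percent. -/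
def NearIsometry (δ : ℝ) (Φ : E3 → E3) : Prop :=
  ∀ x ∈ ball (0 : E3) δ, ∀ y ∈ ball (0 : E3) δ,
    99 / 100 * ‖x - y‖ ≤ ‖Φ x - Φ y‖ ∧ ‖Φ x - Φ y‖ ≤ 101 / 100 * ‖x - y‖

/-- `u` is smooth and solves `Δ u = f(u)` in the open unit ball. -/
def Solves (f : ℝ → ℝ) (u : E3 → ℝ) : Prop :=
  ContDiff ℝ (⊤ : ℕ∞) u ∧ ∀ x ∈ ball (0 : E3) 1, Laplacian.laplacian u x = f (u x)

/-- `u` is homeomorphic to a one-dimensional solution on the unit ball. -/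
def HomeoOneDim (f : ℝ → ℝ) (u : E3 → ℝ) : Prop :=
  ∃ V₁ : ℝ → ℝ, OneDim f V₁ ∧ ∃ a₁ : E3, ‖a₁‖ = 1 ∧
    ∃ Φ₁ : closedBall (0 : E3) 1 ≃ₜ closedBall (0 : E3) 1,
      ∀ x : closedBall (0 : E3) 1, u x = V₁ (inner ℝ (Φ₁ x : E3) a₁)

/-- `u` is nearly isometric to a one-dimensional solution on the ball of radius `δ`. -/
def NearOneDim (f : ℝ → ℝ) (u : E3 → ℝ) (δ : ℝ) : Prop :=
  ∃ V₂ : ℝ → ℝ, OneDim f V₂ ∧ ∃ a₂ : E3, ‖a₂‖ = 1 ∧ ∃ Φ₂ : E3 → E3, NearIsometry δ Φ₂ ∧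
    ∀ x ∈ ball (0 : E3) δ, u x = V₂ (inner ℝ (Φ₂ x) a₂)

theorem result (f : ℝ → ℝ) (hf : ContDiff ℝ (⊤ : ℕ∞) f) (hc : HasCompactSupport f)
    (hf0 : ∀ s, 0 ≤ f s) :
    ∃ u : E3 → ℝ, Solves f u ∧ HomeoOneDim f u ∧ ¬ ∃ δ : ℝ, 0 < δ ∧ NearOneDim f u δ := by
  obtain ⟨M0, hM0⟩ := hc.isCompact.isBounded.exists_norm_le
  have hfM : ∀ s, |M0| + 1 ≤ |s| → f s = 0 := by
    intro s hs
    by_contra h
    have := hM0 s (subset_tsupport f h)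
    rw [Real.norm_eq_abs] at this
    linarith [le_abs_self M0]
  have hM : 0 ≤ |M0| + 1 := by positivity
  have hlow : ∀ v, v ≤ -(|M0| + 1) → f v = 0 := fun v hv =>
    hfM v (by rw [abs_of_nonpos (a := v) (by linarith)]; linarith)
  obtain ⟨V, v1, v2, v3, v4⟩ := Pool.Agent.H96.OD.exV f hf.continuous hf0 (|M0| + 1)
    (-(|M0| + 1) - 1) hM hfM (by linarith)
  obtain ⟨Φ, hΦ⟩ := Pool.Agent.H96.OD.homeo
  have hle : ∀ x : closedBall (0 : EuclideanSpace ℝ (Fin 3)) 1,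
      (Φ x : EuclideanSpace ℝ (Fin 3)) 0 ≤ 1 := fun x => by
    have := (Pool.Agent.H96.OD.mem_iff _).1 (Φ x).2
    nlinarith [sq_nonneg ((Φ x : EuclideanSpace ℝ (Fin 3)) 1),
      sq_nonneg ((Φ x : EuclideanSpace ℝ (Fin 3)) 2)]
  have hu : ∀ x : closedBall (0 : EuclideanSpace ℝ (Fin 3)) 1,
      Pool.Agent.H96.OD.uu (-(|M0| + 1) - 1) x =
        -(|M0| + 1) - 1 + (Φ x : EuclideanSpace ℝ (Fin 3)) 0 := fun x => by
    rw [hΦ]; unfold Pool.Agent.H96.OD.uu; ring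
  refine ⟨Pool.Agent.H96.OD.uu (-(|M0| + 1) - 1), ⟨Pool.Agent.H96.OD.uu_smooth _ _, ?_⟩,
    ⟨V, ⟨v1, v2, v3⟩, EuclideanSpace.single 0 1, by simp, Φ, fun x => ?_⟩, ?_⟩
  · intro x hx
    rw [Pool.Agent.H96.OD.uu_lap, hlow]
    have := hu ⟨x, ball_subset_closedBall hx⟩
    have := hle ⟨x, ball_subset_closedBall hx⟩
    linarith
  · rw [hu, EuclideanSpace.inner_single_right, v4]
    · simp
    · have := hle x
      simp only [one_mul, conj_trivial]; linarith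
  · rintro ⟨δ, hδ, W, ⟨w1, w2, w3⟩, a, ha, Ψ, hΨ, h⟩
    exact Pool.Agent.H96.OD.neg _ δ hδ W w1 w2 (fun s hs => by
      rw [w3, hlow]; linarith) a ha Ψ hΨ h

end Pool.Agent.Results.MP_c10eee_an.No
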